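import Pool.Agent.helper94.AP.SpecB

set_option autoImplicit false

/-! Row ap:PVA (MP_16912e_nt): Gauss sums of the Jacobi symbol modulo an odd squarefree number. -/

namespace Pool.Agent.AP

open Finset Pool.Agent.helper3.FT

private noncomputable def PVA_J (d : ℕ) (x : ZMod d) : ℂ := ((jacobiSym (x.val : ℤ) d : ℤ) : ℂ)

private lemma PVA_J_cast (d : ℕ) [NeZero d] (a : ℤ) : PVA_J d (a : ZMod d) = ((jacobiSym a d : ℤ) : ℂ) := by
  unfold PVA_J
  rw [ZMod.val_intCast, ← jacobiSym.mod_left]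

private lemma PVA_J_mul (d : ℕ) [NeZero d] (x y : ZMod d) : PVA_J d (x * y) = PVA_J d x * PVA_J d y := by
  have hx : x = (((x.val : ℕ) : ℤ) : ZMod d) := by
    rw [Int.cast_natCast, ZMod.natCast_zmod_val]
  have hy : y = (((y.val : ℕ) : ℤ) : ZMod d) := by
    rw [Int.cast_natCast, ZMod.natCast_zmod_val]
  have h1 : x * y = ((((x.val : ℕ) : ℤ) * ((y.val : ℕ) : ℤ) : ℤ) : ZMod d) := by
    rw [Int.cast_mul, ← hx, ← hy]
  rw [h1, PVA_J_cast, jacobiSym.mul_left]
  unfold PVA_J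
  push_cast
  rfl

private lemma PVA_J_sq (d : ℕ) (x : ZMod d) : ‖PVA_J d x‖ ^ 2 ≤ 1 := by
  unfold PVA_J
  rcases jacobiSym.trichotomy (x.val : ℤ) d with h | h | h <;> rw [h] <;> simp

private lemma PVA_J_unit (d : ℕ) [NeZero d] (u : (ZMod d)ˣ) : ‖PVA_J d (u : ZMod d)‖ = 1 := by
  have hg : Int.gcd ((((u : ZMod d).val : ℕ)) : ℤ) d = 1 := by
    rw [Int.gcd_natCast_natCast]
    exact ZMod.val_coe_unit_coprime u
  unfold PVA_J
  have h1 := jacobiSym.sq_one hg
  rcases jacobiSym.trichotomy (((u : ZMod d).val : ℕ) : ℤ) d with h | h | h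
  · rw [h] at h1; norm_num at h1
  · rw [h]; simp
  · rw [h]; simp

private lemma PVA_J_nonunit (d : ℕ) [NeZero d] (x : ZMod d) (hx : ¬ IsUnit x) : PVA_J d x = 0 := by
  unfold PVA_J
  have hg : Int.gcd ((x.val : ℕ) : ℤ) d ≠ 1 := by
    intro h
    rw [Int.gcd_natCast_natCast] at h
    apply hx
    have h1 : IsUnit ((x.val : ℕ) : ZMod d) := (ZMod.isUnit_iff_coprime _ _).mpr h
    rw [ZMod.natCast_zmod_val] at h1
    exact h1
  rw [jacobiSym.eq_zero_iff_not_coprime.mpr hg]
  simp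

private noncomputable def PVA_S (d : ℕ) [NeZero d] (h : ZMod d) : ℂ :=
  ∑ x : ZMod d, PVA_J d x * ZMod.stdAddChar (h * x)

private lemma PVA_sum (d : ℕ) [NeZero d] (g : ℕ → ℂ) : ∑ x ∈ range d, g x = ∑ x : ZMod d, g x.val := by
  apply Finset.sum_nbij' (fun x : ℕ => (x : ZMod d)) (fun x : ZMod d => x.val)
  · intro x _
    exact Finset.mem_univ _
  · intro x _
    rw [Finset.mem_range]
    exact ZMod.val_lt x
  · intro x hx
    rw [Finset.mem_range] at hx
    exact ZMod.val_cast_of_lt hx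
  · intro x _
    exact ZMod.natCast_zmod_val x
  · intro x hx
    rw [Finset.mem_range] at hx
    rw [ZMod.val_cast_of_lt hx]

private lemma PVA_S_eq (d : ℕ) [NeZero d] (h : ℤ) :
    ∑ x ∈ range d, ((jacobiSym (x : ℤ) d : ℤ) : ℂ) * e ((h : ℝ) * x / d) = PVA_S d (h : ZMod d) := by
  rw [PVA_sum d (fun x => ((jacobiSym (x : ℤ) d : ℤ) : ℂ) * e ((h : ℝ) * x / d))]
  unfold PVA_S
  apply Finset.sum_congr rfl
  intro x _
  have h1 : (h : ZMod d) * x = ((h * ((x.val : ℕ) : ℤ) : ℤ) : ZMod d) := by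
    rw [Int.cast_mul, Int.cast_natCast, ZMod.natCast_zmod_val]
  rw [h1, ZMod.stdAddChar_coe]
  unfold PVA_J e
  congr 2
  push_cast
  ring

private lemma PVA_unit (d : ℕ) [NeZero d] (u : (ZMod d)ˣ) : ‖PVA_S d (u : ZMod d)‖ = ‖PVA_S d 1‖ := by
  have h1 : PVA_S d 1 = PVA_J d (u : ZMod d) * PVA_S d (u : ZMod d) := by
    unfold PVA_S
    rw [Finset.mul_sum, ← Equiv.sum_comp (Units.mulLeft u) (fun x => PVA_J d x * ZMod.stdAddChar ((1 : ZMod d) * x))]
    apply Finset.sum_congr rfl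
    intro x _
    rw [Units.mulLeft_apply, PVA_J_mul, one_mul, mul_assoc]
  rw [h1, norm_mul, PVA_J_unit, one_mul]

private lemma PVA_parseval (d : ℕ) [NeZero d] :
    ∑ h : ZMod d, ‖PVA_S d h‖ ^ 2 = d * ∑ x : ZMod d, ‖PVA_J d x‖ ^ 2 := by
  have key : (((∑ h : ZMod d, ‖PVA_S d h‖ ^ 2 : ℝ)) : ℂ) = ((d * ∑ x : ZMod d, ‖PVA_J d x‖ ^ 2 : ℝ) : ℂ) := by
    push_cast
    have e1 : ∀ z : ℂ, ((‖z‖ : ℂ)) ^ 2 = z * (starRingEnd ℂ) z := by
      intro z
      rw [Complex.mul_conj, Complex.normSq_eq_norm_sq]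
      push_cast
      rfl
    have hJ : ∀ x : ZMod d, (starRingEnd ℂ) (PVA_J d x) = PVA_J d x := by
      intro x
      unfold PVA_J
      exact map_intCast (starRingEnd ℂ) _
    calc ∑ h : ZMod d, ((‖PVA_S d h‖ : ℂ)) ^ 2
        = ∑ h : ZMod d, ∑ x : ZMod d, ∑ y : ZMod d, PVA_J d x * PVA_J d y * ZMod.stdAddChar (h * (x - y)) := by
          apply Finset.sum_congr rfl
          intro h _
          rw [e1]
          unfold PVA_S
          rw [map_sum, Finset.sum_mul_sum]
          apply Finset.sum_congr rfl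
          intro x _
          apply Finset.sum_congr rfl
          intro y _
          rw [map_mul (starRingEnd ℂ), hJ, ← AddChar.map_neg_eq_conj]
          have h2 : h * (x - y) = h * x + -(h * y) := by ring
          rw [h2, AddChar.map_add_eq_mul]
          ring
      _ = ∑ x : ZMod d, ∑ y : ZMod d, PVA_J d x * PVA_J d y * ∑ h : ZMod d, ZMod.stdAddChar (h * (x - y)) := by
          rw [Finset.sum_comm]
          apply Finset.sum_congr rfl
          intro x _
          rw [Finset.sum_comm]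
          apply Finset.sum_congr rfl
          intro y _
          rw [Finset.mul_sum]
      _ = ∑ x : ZMod d, ∑ y : ZMod d, PVA_J d x * PVA_J d y * (if x = y then (d : ℂ) else 0) := by
          apply Finset.sum_congr rfl
          intro x _
          apply Finset.sum_congr rfl
          intro y _
          rw [AddChar.sum_mulShift (x - y) (ZMod.isPrimitive_stdAddChar d), ZMod.card]
          by_cases hxy : x = y
          · rw [if_pos (sub_eq_zero.mpr hxy), if_pos hxy]
          · rw [if_neg (sub_ne_zero.mpr hxy), if_neg hxy, Nat.cast_zero]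
      _ = (d : ℂ) * ∑ x : ZMod d, ((‖PVA_J d x‖ : ℂ)) ^ 2 := by
          rw [Finset.mul_sum]
          apply Finset.sum_congr rfl
          intro x _
          rw [e1, hJ]
          simp only [mul_ite, mul_zero]
          rw [Finset.sum_ite_eq]
          simp only [Finset.mem_univ, if_true]
          ring
  exact_mod_cast key

private lemma PVA_one (d : ℕ) [NeZero d] : ‖PVA_S d 1‖ ≤ √(d : ℝ) := by
  classical
  have hφ : 0 < (Nat.totient d : ℝ) := by
    have : 0 < Nat.totient d := Nat.totient_pos.mpr (Nat.pos_of_ne_zero (NeZero.ne d))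
    exact_mod_cast this
  have h1 : (Nat.totient d : ℝ) * ‖PVA_S d 1‖ ^ 2 ≤ ∑ h : ZMod d, ‖PVA_S d h‖ ^ 2 := by
    calc (Nat.totient d : ℝ) * ‖PVA_S d 1‖ ^ 2 = ∑ u : (ZMod d)ˣ, ‖PVA_S d (u : ZMod d)‖ ^ 2 := by
          rw [Finset.sum_congr rfl (fun u _ => by rw [PVA_unit d u]), Finset.sum_const, Finset.card_univ,
            ZMod.card_units_eq_totient, nsmul_eq_mul]
      _ = ∑ h ∈ Finset.image (fun u : (ZMod d)ˣ => (u : ZMod d)) Finset.univ, ‖PVA_S d h‖ ^ 2 := by
          rw [Finset.sum_image]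
          intro a _ b _ hab
          exact Units.ext hab
      _ ≤ ∑ h : ZMod d, ‖PVA_S d h‖ ^ 2 :=
          Finset.sum_le_sum_of_subset_of_nonneg (Finset.subset_univ _) (fun _ _ _ => by positivity)
  have h2 : ∑ x : ZMod d, ‖PVA_J d x‖ ^ 2 ≤ Nat.totient d := by
    calc ∑ x : ZMod d, ‖PVA_J d x‖ ^ 2
        = ∑ x ∈ Finset.image (fun u : (ZMod d)ˣ => (u : ZMod d)) Finset.univ, ‖PVA_J d x‖ ^ 2 := by
          symm
          apply Finset.sum_subset (Finset.subset_univ _)
          intro x _ hx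
          rw [PVA_J_nonunit d x]
          · simp
          · rintro ⟨u, rfl⟩
            exact hx (Finset.mem_image_of_mem _ (Finset.mem_univ u))
      _ = ∑ u : (ZMod d)ˣ, ‖PVA_J d (u : ZMod d)‖ ^ 2 := by
          rw [Finset.sum_image]
          intro a _ b _ hab
          exact Units.ext hab
      _ ≤ Nat.totient d := by
          rw [Finset.sum_congr rfl (fun u _ => by rw [PVA_J_unit d u]), Finset.sum_const, Finset.card_univ,
            ZMod.card_units_eq_totient]
          simp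
  rw [PVA_parseval] at h1
  have h3 : (Nat.totient d : ℝ) * ‖PVA_S d 1‖ ^ 2 ≤ (Nat.totient d : ℝ) * d := by
    refine h1.trans ?_
    rw [mul_comm]
    exact mul_le_mul_of_nonneg_right h2 (Nat.cast_nonneg d)
  have h4 : ‖PVA_S d 1‖ ^ 2 ≤ d := le_of_mul_le_mul_left h3 hφ
  exact Real.le_sqrt_of_sq_le h4

/-- A unit `a` with symbol `-1` and `h a = h`. -/
private lemma PVA_twist (d : ℕ) [NeZero d] (hodd : Odd d) (hsq : Squarefree d) (h : ℤ) (hh : ¬ IsCoprime h (d : ℤ)) :
    ∃ u : (ZMod d)ˣ, PVA_J d (u : ZMod d) = -1 ∧ (h : ZMod d) * u = h := by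
  have hg : Nat.gcd h.natAbs d ≠ 1 := by
    intro h1
    apply hh
    rw [Int.isCoprime_iff_gcd_eq_one]
    exact h1
  obtain ⟨q, hq, hqg⟩ := Nat.exists_prime_and_dvd hg
  have hqh : (q : ℤ) ∣ h := Int.natCast_dvd.mpr (hqg.trans (Nat.gcd_dvd_left _ _))
  have hqd : q ∣ d := hqg.trans (Nat.gcd_dvd_right _ _)
  obtain ⟨d', hd'⟩ := hqd
  have hd0 : d ≠ 0 := NeZero.ne d
  have hd'0 : d' ≠ 0 := by
    rintro rfl
    rw [mul_zero] at hd'
    exact hd0 hd'
  have hcop : Nat.Coprime q d' := by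
    rw [Nat.Prime.coprime_iff_not_dvd hq]
    rintro ⟨c, hc⟩
    have h1 : q * q ∣ d := ⟨c, by rw [hd', hc]; ring⟩
    have h2 := hsq q h1
    exact hq.one_lt.ne' (Nat.isUnit_iff.mp h2)
  have hq2 : q ≠ 2 := by
    rintro rfl
    rw [hd'] at hodd
    exact absurd hodd (by rw [Nat.not_odd_iff_even]; exact even_two_mul d')
  have : Fact q.Prime := ⟨hq⟩
  have : NeZero q := ⟨hq.ne_zero⟩
  have : NeZero d' := ⟨hd'0⟩
  obtain ⟨a, ha⟩ := quadraticChar_exists_neg_one (F := ZMod q) (by rw [ZMod.ringChar_zmod_n]; exact hq2)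
  obtain ⟨k, hk1, hk2⟩ := Nat.chineseRemainder hcop a.val 1
  have hkq : (k : ZMod q) = a := by
    have h1 : (k : ZMod q) = ((a.val : ℕ) : ZMod q) := (ZMod.natCast_eq_natCast_iff _ _ _).mpr hk1
    rw [h1, ZMod.natCast_zmod_val]
  have hJq : jacobiSym (k : ℤ) q = -1 := by
    rw [← jacobiSym.legendreSym.to_jacobiSym]
    unfold legendreSym
    have h2 : (((k : ℕ) : ℤ) : ZMod q) = a := by
      rw [Int.cast_natCast]
      exact hkq
    rw [h2]
    exact ha
  have hJd' : jacobiSym (k : ℤ) d' = 1 := by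
    have h2 : (k : ℤ) % (d' : ℤ) = (1 : ℤ) % (d' : ℤ) := by
      have := hk2
      unfold Nat.ModEq at this
      exact_mod_cast this
    rw [jacobiSym.mod_left' h2, jacobiSym.one_left]
  have hJ : jacobiSym (k : ℤ) d = -1 := by
    rw [hd', jacobiSym.mul_right, hJq, hJd', mul_one]
  have hunit : IsUnit (k : ZMod d) := by
    by_contra hcon
    have h3 := PVA_J_nonunit d (k : ZMod d) hcon
    have h4 := PVA_J_cast d (k : ℤ)
    rw [Int.cast_natCast, h3, hJ] at h4
    norm_num at h4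
  obtain ⟨u, hu⟩ := hunit
  refine ⟨u, ?_, ?_⟩
  · rw [hu]
    have h4 := PVA_J_cast d (k : ℤ)
    rw [Int.cast_natCast, hJ] at h4
    rw [h4]
    norm_num
  · rw [hu]
    have h5 : ((h * ((k : ℤ) - 1) : ℤ) : ZMod d) = 0 := by
      rw [ZMod.intCast_zmod_eq_zero_iff_dvd, hd']
      push_cast
      apply mul_dvd_mul hqh
      have h6 : (d' : ℤ) ∣ (1 : ℤ) - k := by
        have := (Nat.modEq_iff_dvd).mp hk2
        exact_mod_cast this
      rw [← dvd_neg]
      have h7 : -((k : ℤ) - 1) = 1 - k := by ring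
      rw [h7]
      exact h6
    push_cast at h5
    have h6 : (h : ZMod d) * (k : ZMod d) = (h : ZMod d) * ((k : ZMod d) - 1) + h := by ring
    rw [h6, h5, zero_add]

private lemma PVA_zero (d : ℕ) [NeZero d] (hodd : Odd d) (hsq : Squarefree d) (h : ℤ) (hh : ¬ IsCoprime h (d : ℤ)) :
    PVA_S d (h : ZMod d) = 0 := by
  obtain ⟨u, hu1, hu2⟩ := PVA_twist d hodd hsq h hh
  have h1 : PVA_S d (h : ZMod d) = - PVA_S d (h : ZMod d) := by
    conv_lhs =>
      unfold PVA_S
      rw [← Equiv.sum_comp (Units.mulLeft u) (fun x => PVA_J d x * ZMod.stdAddChar ((h : ZMod d) * x))]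
    unfold PVA_S
    rw [← Finset.sum_neg_distrib]
    apply Finset.sum_congr rfl
    intro x _
    rw [Units.mulLeft_apply, PVA_J_mul, hu1, ← mul_assoc (h : ZMod d), hu2]
    ring
  have h2 : (2 : ℂ) * PVA_S d (h : ZMod d) = 0 := by
    linear_combination h1
  rcases mul_eq_zero.mp h2 with h3 | h3
  · norm_num at h3
  · exact h3

theorem PVA : PVA_stmt := by
  intro d hodd hsq hd h
  have : NeZero d := ⟨by omega⟩
  rw [PVA_S_eq]
  refine ⟨?_, fun hh => PVA_zero d hodd hsq h hh⟩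
  by_cases hh : IsCoprime h (d : ℤ)
  · have hu : IsUnit (h : ZMod d) := by
      obtain ⟨a, b, hab⟩ := hh
      have h1 : (a : ZMod d) * (h : ZMod d) = 1 := by
        have h2 := congrArg (fun z : ℤ => (z : ZMod d)) hab
        push_cast at h2
        rw [ZMod.natCast_self, mul_zero, add_zero] at h2
        exact h2
      exact IsUnit.of_mul_eq_one_right _ h1
    obtain ⟨u, hu⟩ := hu
    rw [← hu, PVA_unit]
    exact PVA_one d
  · rw [PVA_zero d hodd hsq h hh, norm_zero]
    exact Real.sqrt_nonneg _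

end Pool.Agent.AP
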