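import Pool.Agent.helper8.AP.SpecR

set_option autoImplicit false

/-! Row ap:RAS (MP_16912e_nt): from sums in boxes to the weight `Ph`, assembly. -/

namespace Pool.Agent.AP

open Finset

private lemma RAS_cell (i K : ℕ) (Z : ℝ) (z : ℕ) (hK : 0 < K) (hZ : 0 < Z)
    (hz : z ∈ Ioc ⌊(i : ℝ) / K * Z⌋₊ ⌊((i : ℝ) + 1) / K * Z⌋₊) :
    (i : ℝ) / K < z / Z ∧ (z : ℝ) / Z ≤ ((i : ℝ) + 1) / K := by
  rw [Finset.mem_Ioc] at hz
  have hK' : (0 : ℝ) < K := by exact_mod_cast hK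
  constructor
  · rw [lt_div_iff₀ hZ]
    exact Nat.lt_of_floor_lt hz.1
  · rw [div_le_iff₀ hZ]
    have h0 : 0 ≤ ((i : ℝ) + 1) / K * Z := by positivity
    exact (Nat.le_floor_iff h0).mp hz.2

theorem RAS (hRPI : RPI_stmt) (hRPU : RPU_stmt) (hRRM : RRM_stmt) (hRPT : RPT_stmt) (hRCE : RCE_stmt) :
    RAS_stmt := by
  intro p
  obtain ⟨B, hB1, hB2, hcont, hU⟩ := hRPU p
  refine ⟨B + 2, by linarith, fun ε hε => ?_⟩
  obtain ⟨ε', hε'⟩ : ∃ ε' : ℝ, ε' = min ε 1 := ⟨_, rfl⟩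
  have hε'0 : 0 < ε' := by rw [hε']; exact lt_min hε one_pos
  have hε'1 : ε' ≤ 1 := by rw [hε']; exact min_le_right _ _
  have hε'ε : ε' ≤ ε := by rw [hε']; exact min_le_left _ _
  obtain ⟨K₀, hK₀, hKU⟩ := hU ε' hε'0
  obtain ⟨K, hKdef⟩ : ∃ K : ℕ, K = 2 * K₀ := ⟨_, rfl⟩
  have hK2 : 2 ≤ K := by omega
  have hKev : Even K := by rw [hKdef]; exact even_two_mul K₀
  have hKpos : (0 : ℝ) < K := by exact_mod_cast (by omega : 0 < K)
  have hKh : K / 2 = K₀ := by omega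
  have hKr : (K : ℝ) = 2 * K₀ := by rw [hKdef]; push_cast; ring
  refine ⟨K, hK2, hKev, ?_⟩
  intro c hc Z V γ θ ρ hZ hV hγ hθ hρ hcell
  rw [hRPT (fun z y => c z y * Ph p ((z : ℝ) / Z) ((y : ℝ) / V)) K Z V hK2 hKev hZ hV]
  obtain ⟨A, hA⟩ : ∃ A : ℝ, A = Z / K * (V / K) := ⟨_, rfl⟩
  have hA0 : 0 ≤ A := by rw [hA]; positivity
  have hKA : (K : ℝ) * (K * A) = Z * V := by
    rw [hA]
    field_simp
  -- points
  have hi1 : ∀ i ∈ Ico (K / 2) K, 1 / 2 ≤ (i : ℝ) / K ∧ ((i : ℝ) + 1) / K ≤ 1 := by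
    intro i hi
    rw [Finset.mem_Ico, hKh] at hi
    have h1 : (K₀ : ℝ) ≤ i := by exact_mod_cast hi.1
    have h2 : (i : ℝ) + 1 ≤ K := by exact_mod_cast hi.2
    constructor
    · rw [le_div_iff₀ hKpos]
      linarith
    · rw [div_le_one hKpos]
      exact h2
  have hj1 : ∀ j ∈ range (2 * K), 0 ≤ (j : ℝ) / K ∧ ((j : ℝ) + 1) / K ≤ 2 := by
    intro j hj
    rw [Finset.mem_range] at hj
    have h2 : (j : ℝ) + 1 ≤ 2 * K := by exact_mod_cast hj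
    constructor
    · positivity
    · rw [div_le_iff₀ hKpos]
      exact h2
  have hgap : ∀ (i : ℕ) (x : ℝ), (i : ℝ) / K < x → x ≤ ((i : ℝ) + 1) / K → |x - ((i : ℝ) + 1) / K| ≤ 1 / K := by
    intro i x h1 h2
    have h3 : ((i : ℝ) + 1) / K = (i : ℝ) / K + 1 / K := add_div _ _ _
    rw [abs_le]
    constructor <;> linarith [show (0 : ℝ) ≤ 1 / K by positivity]
  have hinc : ∀ (i : ℕ), (i : ℝ) / K ≤ ((i : ℝ) + 1) / K := by
    intro i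
    have h3 : ((i : ℝ) + 1) / K = (i : ℝ) / K + 1 / K := add_div _ _ _
    linarith [show (0 : ℝ) ≤ 1 / K by positivity]
  -- every cell
  have hone : ∀ i ∈ Ico (K / 2) K, ∀ j ∈ range (2 * K),
      |∑ z ∈ Ioc ⌊(i : ℝ) / K * Z⌋₊ ⌊((i : ℝ) + 1) / K * Z⌋₊,
        ∑ y ∈ Ioc ⌊(j : ℝ) / K * V⌋₊ ⌊((j : ℝ) + 1) / K * V⌋₊, c z y * Ph p ((z : ℝ) / Z) ((y : ℝ) / V) -
        γ * (Ph p (((i : ℝ) + 1) / K) (((j : ℝ) + 1) / K) * A)| ≤
        ((B + ε') * (θ * γ + ρ) + ε' * γ) * A := by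
    intro i hi j hj
    obtain ⟨hi2, hi3⟩ := hi1 i hi
    obtain ⟨hj2, hj3⟩ := hj1 j hj
    have hiI := hinc i
    have hjI := hinc j
    obtain ⟨hP0, hPB⟩ := hB2 (((i : ℝ) + 1) / K) (((j : ℝ) + 1) / K) (by linarith) hi3 (by linarith) hj3
    refine hRCE _ _ c (fun z y => Ph p ((z : ℝ) / Z) ((y : ℝ) / V)) _ B ε' A γ θ ρ hc hP0 hPB hε'0.le hA0 hγ hθ hρ ?_ ?_
    · intro z hz y hy
      obtain ⟨hz1, hz2⟩ := RAS_cell i K Z z (by omega) hZ hz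
      obtain ⟨hy1, hy2⟩ := RAS_cell j K V y (by omega) hV hy
      exact hKU K (by omega) _ _ _ _ (by linarith) (by linarith) (by linarith) (by linarith) (by linarith) hi3
        (by linarith) hj3 (hgap i _ hz1 hz2) (hgap j _ hy1 hy2)
    · rw [hA]
      exact hcell i hi j hj
  -- the sum of the cells
  obtain ⟨E, hE⟩ : ∃ E : ℝ, E = ((B + ε') * (θ * γ + ρ) + ε' * γ) * A := ⟨_, rfl⟩
  have hsum : |∑ i ∈ Ico (K / 2) K, ∑ j ∈ range (2 * K),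
      ∑ z ∈ Ioc ⌊(i : ℝ) / K * Z⌋₊ ⌊((i : ℝ) + 1) / K * Z⌋₊,
        ∑ y ∈ Ioc ⌊(j : ℝ) / K * V⌋₊ ⌊((j : ℝ) + 1) / K * V⌋₊, c z y * Ph p ((z : ℝ) / Z) ((y : ℝ) / V) -
      ∑ i ∈ Ico (K / 2) K, ∑ j ∈ range (2 * K), γ * (Ph p (((i : ℝ) + 1) / K) (((j : ℝ) + 1) / K) * A)| ≤
      K * (K * E) := by
    rw [← Finset.sum_sub_distrib]
    refine (Finset.abs_sum_le_sum_abs _ _).trans ?_
    have h1 : ∀ i ∈ Ico (K / 2) K, |∑ j ∈ range (2 * K),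
      ∑ z ∈ Ioc ⌊(i : ℝ) / K * Z⌋₊ ⌊((i : ℝ) + 1) / K * Z⌋₊,
        ∑ y ∈ Ioc ⌊(j : ℝ) / K * V⌋₊ ⌊((j : ℝ) + 1) / K * V⌋₊, c z y * Ph p ((z : ℝ) / Z) ((y : ℝ) / V) -
      ∑ j ∈ range (2 * K), γ * (Ph p (((i : ℝ) + 1) / K) (((j : ℝ) + 1) / K) * A)| ≤ 2 * K * E := by
      intro i hi
      rw [← Finset.sum_sub_distrib]
      refine (Finset.abs_sum_le_sum_abs _ _).trans ?_
      have h2 : ∀ j ∈ range (2 * K), |∑ z ∈ Ioc ⌊(i : ℝ) / K * Z⌋₊ ⌊((i : ℝ) + 1) / K * Z⌋₊,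
        ∑ y ∈ Ioc ⌊(j : ℝ) / K * V⌋₊ ⌊((j : ℝ) + 1) / K * V⌋₊, c z y * Ph p ((z : ℝ) / Z) ((y : ℝ) / V) -
        γ * (Ph p (((i : ℝ) + 1) / K) (((j : ℝ) + 1) / K) * A)| ≤ E := by
        intro j hj
        rw [hE]
        exact hone i hi j hj
      refine (Finset.sum_le_sum h2).trans ?_
      rw [Finset.sum_const, Finset.card_range, nsmul_eq_mul]
      push_cast
      exact le_refl _
    refine (Finset.sum_le_sum h1).trans ?_
    rw [Finset.sum_const, Nat.card_Ico, nsmul_eq_mul]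
    have h3 : ((K - K / 2 : ℕ) : ℝ) = K / 2 := by
      have h4 : K - K / 2 = K₀ := by omega
      rw [h4, hKr]
      ring
    rw [h3]
    apply le_of_eq
    ring
  -- the Riemann sums
  have hR : ∀ i ∈ Ico (K / 2) K, |1 / (K : ℝ) * ∑ j ∈ range (2 * K), Ph p (((i : ℝ) + 1) / K) (((j : ℝ) + 1) / K) - Cst| ≤
      2 * ε' := by
    intro i hi
    obtain ⟨hi2, hi3⟩ := hi1 i hi
    have hiI := hinc i
    have h1 := hRRM (fun v => Ph p (((i : ℝ) + 1) / K) v) K ε' (by omega) hε'0.le (hcont _ (by linarith) hi3)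
      (fun v v' hv1 hv2 hv3 hv4 hvv => hKU K (by omega) _ _ _ _ (by linarith) hi3 hv1 hv2 (by linarith) hi3 hv3 hv4
        (by rw [sub_self, abs_zero]; positivity) hvv)
    rw [hRPI p (((i : ℝ) + 1) / K) (by linarith) hi3] at h1
    exact h1
  have hR2 : |∑ i ∈ Ico (K / 2) K, ∑ j ∈ range (2 * K), γ * (Ph p (((i : ℝ) + 1) / K) (((j : ℝ) + 1) / K) * A) -
      γ * (Cst / 2) * (Z * V)| ≤ ε' * γ * (Z * V) := by
    have h1 : ∑ i ∈ Ico (K / 2) K, ∑ j ∈ range (2 * K), γ * (Ph p (((i : ℝ) + 1) / K) (((j : ℝ) + 1) / K) * A) -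
        γ * (Cst / 2) * (Z * V) = γ * (K * A) * ∑ i ∈ Ico (K / 2) K,
          (1 / (K : ℝ) * ∑ j ∈ range (2 * K), Ph p (((i : ℝ) + 1) / K) (((j : ℝ) + 1) / K) - Cst) := by
      rw [Finset.sum_sub_distrib, Finset.sum_const, Nat.card_Ico, nsmul_eq_mul]
      have h3 : ((K - K / 2 : ℕ) : ℝ) = K / 2 := by
        have h4 : K - K / 2 = K₀ := by omega
        rw [h4, hKr]
        ring
      rw [h3, mul_sub, Finset.mul_sum]
      have h5 : ∀ i ∈ Ico (K / 2) K, γ * (K * A) * (1 / (K : ℝ) * ∑ j ∈ range (2 * K), Ph p (((i : ℝ) + 1) / K) (((j : ℝ) + 1) / K)) =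
          ∑ j ∈ range (2 * K), γ * (Ph p (((i : ℝ) + 1) / K) (((j : ℝ) + 1) / K) * A) := by
        intro i _
        rw [Finset.mul_sum, Finset.mul_sum]
        apply Finset.sum_congr rfl
        intro j _
        field_simp
      rw [Finset.sum_congr rfl h5]
      have h6 : γ * (Cst / 2) * (Z * V) = γ * (K * A) * (K / 2 * Cst) := by
        rw [← hKA]
        ring
      rw [h6]
    rw [h1, abs_mul]
    have h2 : |∑ i ∈ Ico (K / 2) K,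
          (1 / (K : ℝ) * ∑ j ∈ range (2 * K), Ph p (((i : ℝ) + 1) / K) (((j : ℝ) + 1) / K) - Cst)| ≤ K / 2 * (2 * ε') := by
      refine (Finset.abs_sum_le_sum_abs _ _).trans ((Finset.sum_le_sum hR).trans ?_)
      rw [Finset.sum_const, Nat.card_Ico, nsmul_eq_mul]
      have h3 : ((K - K / 2 : ℕ) : ℝ) = K / 2 := by
        have h4 : K - K / 2 = K₀ := by omega
        rw [h4, hKr]
        ring
      rw [h3]
    have h3 : 0 ≤ γ * (K * A) := by positivity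
    rw [abs_of_nonneg h3]
    calc γ * (K * A) * |∑ i ∈ Ico (K / 2) K,
          (1 / (K : ℝ) * ∑ j ∈ range (2 * K), Ph p (((i : ℝ) + 1) / K) (((j : ℝ) + 1) / K) - Cst)|
        ≤ γ * (K * A) * (K / 2 * (2 * ε')) := mul_le_mul_of_nonneg_left h2 h3
      _ = ε' * γ * (K * (K * A)) := by ring
      _ = ε' * γ * (Z * V) := by rw [hKA]
  have hKE : (K : ℝ) * (K * E) = ((B + ε') * (θ * γ + ρ) + ε' * γ) * (Z * V) := by
    rw [hE, ← hKA]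
    ring
  rw [hKE] at hsum
  have hZV : 0 ≤ Z * V := by positivity
  have htot := abs_add_le (∑ i ∈ Ico (K / 2) K, ∑ j ∈ range (2 * K),
      ∑ z ∈ Ioc ⌊(i : ℝ) / K * Z⌋₊ ⌊((i : ℝ) + 1) / K * Z⌋₊,
        ∑ y ∈ Ioc ⌊(j : ℝ) / K * V⌋₊ ⌊((j : ℝ) + 1) / K * V⌋₊, c z y * Ph p ((z : ℝ) / Z) ((y : ℝ) / V) -
      ∑ i ∈ Ico (K / 2) K, ∑ j ∈ range (2 * K), γ * (Ph p (((i : ℝ) + 1) / K) (((j : ℝ) + 1) / K) * A))
    (∑ i ∈ Ico (K / 2) K, ∑ j ∈ range (2 * K), γ * (Ph p (((i : ℝ) + 1) / K) (((j : ℝ) + 1) / K) * A) -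
      γ * (Cst / 2) * (Z * V))
  rw [sub_add_sub_cancel] at htot
  refine htot.trans ((add_le_add hsum hR2).trans ?_)
  rw [← add_mul]
  apply mul_le_mul_of_nonneg_right _ hZV
  have hq : 0 ≤ θ * γ + ρ := by positivity
  have h1 : (B + ε') * (θ * γ + ρ) ≤ (B + 2) * (θ * γ + ρ) := mul_le_mul_of_nonneg_right (by linarith) hq
  have h2 : ε' * γ ≤ ε * γ := mul_le_mul_of_nonneg_right hε'ε hγ
  have h3 : 0 ≤ ε * γ := by positivity
  have h4 : 2 * (ε * γ) ≤ (B + 2) * (ε * γ) := mul_le_mul_of_nonneg_right (by linarith) h3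
  linarith

end Pool.Agent.AP
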