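import Pool.Agent.helper8.AP.SpecR

set_option autoImplicit false

namespace Pool.Agent.AP

open Finset

private lemma RGC_den {t : ℝ} (h0 : 0 ≤ t) (h : t ≤ 1) : 0 < √(1 - t ^ 2 / 2) + √(1 - t ^ 2) := by
  have h1 : 0 < √(1 - t ^ 2 / 2) := Real.sqrt_pos.mpr (by nlinarith)
  have h2 : 0 ≤ √(1 - t ^ 2) := Real.sqrt_nonneg _
  linarith

/-- `Gf` on `[0, 1]` -/
private lemma RGC_a : ContinuousOn Gf (Set.Icc 0 1) := by
  have h : ContinuousOn (fun t : ℝ => 1 / (2 * (√(1 - t ^ 2 / 2) + √(1 - t ^ 2)))) (Set.Icc 0 1) := by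
    apply ContinuousOn.div continuousOn_const
    · apply Continuous.continuousOn
      fun_prop
    · intro t ht
      have := RGC_den ht.1 ht.2
      positivity
  refine h.congr ?_
  intro t ht
  unfold Gf
  rw [if_pos ht.2]

private lemma RGC_b : ContinuousOn Gf (Set.Ici 1) := by
  have h : ContinuousOn (fun t : ℝ => √(1 - t ^ 2 / 2) / t ^ 2) (Set.Ici 1) := by
    apply ContinuousOn.div
    · apply Continuous.continuousOn
      fun_prop
    · apply Continuous.continuousOn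
      fun_prop
    · intro t ht
      have : (0 : ℝ) < t := lt_of_lt_of_le one_pos ht
      positivity
  refine h.congr ?_
  intro t ht
  unfold Gf
  split_ifs with h1
  · have h2 : t = 1 := le_antisymm h1 ht
    subst h2
    have h3 : √(1 - (1 : ℝ) ^ 2) = 0 := by
      rw [show (1 : ℝ) - 1 ^ 2 = 0 by norm_num, Real.sqrt_zero]
    have h4 : (1 : ℝ) - 1 ^ 2 / 2 = 1 / 2 := by norm_num
    show 1 / (2 * (√(1 - (1 : ℝ) ^ 2 / 2) + √(1 - (1 : ℝ) ^ 2))) = √(1 - (1 : ℝ) ^ 2 / 2) / (1 : ℝ) ^ 2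
    rw [h3, h4]
    have h5 : √(1 / 2 : ℝ) * √(1 / 2 : ℝ) = 1 / 2 := Real.mul_self_sqrt (by norm_num)
    have h6 : 0 < √(1 / 2 : ℝ) := Real.sqrt_pos.mpr (by norm_num)
    rw [add_zero, one_pow, div_one, div_eq_iff (by positivity)]
    nlinarith
  · rfl

/-- **RGC**. -/
theorem RGC : RGC_stmt := by
  unfold RGC_stmt
  have h := RGC_a.union_of_isClosed RGC_b isClosed_Icc isClosed_Ici
  refine h.mono ?_
  intro t ht
  by_cases h1 : t ≤ 1
  · exact Or.inl ⟨ht, h1⟩
  · exact Or.inr (not_le.mp h1).le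

end Pool.Agent.AP
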