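import Pool.Agent.helper8.AP.SpecR

set_option autoImplicit false

namespace Pool.Agent.AP

open Finset

private noncomputable def RGI_F (t : ℝ) : ℝ :=
  - (t * Gf t) - 1 / √2 * Real.arcsin (t / √2) + Real.arcsin t

private lemma RGI_s2 : √2 * √2 = (2 : ℝ) := Real.mul_self_sqrt (by norm_num)

private lemma RGI_s2pos : (0 : ℝ) < √2 := Real.sqrt_pos.mpr (by norm_num)

private lemma RGI_s2gt : (1 : ℝ) < √2 := by
  rw [Real.lt_sqrt (by norm_num)]
  norm_num

/-- derivative of `√(1 - t² / 2) / t` -/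
private lemma RGI_da {t : ℝ} (h0 : 0 < t) (h1 : t < √2) :
    HasDerivAt (fun x : ℝ => √(1 - x ^ 2 / 2) / x)
      (-(√(1 - t ^ 2 / 2) / t ^ 2) - 1 / (2 * √(1 - t ^ 2 / 2))) t := by
  have hp : 0 < 1 - t ^ 2 / 2 := by nlinarith [RGI_s2, RGI_s2pos]
  have hs : 0 < √(1 - t ^ 2 / 2) := Real.sqrt_pos.mpr hp
  have hd : HasDerivAt (fun x : ℝ => 1 - x ^ 2 / 2) (-t) t := by
    have := ((hasDerivAt_pow 2 t).div_const 2).const_sub 1
    simpa using this
  have h2 := hd.sqrt hp.ne'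
  have h3 := h2.div (hasDerivAt_id t) h0.ne'
  refine h3.congr_deriv ?_
  simp only [id]
  have h4 : √(1 - t ^ 2 / 2) ^ 2 = 1 - t ^ 2 / 2 := Real.sq_sqrt hp.le
  field_simp
  ring

private lemma RGI_db {t : ℝ} (h0 : 0 < t) (h1 : t < 1) :
    HasDerivAt (fun x : ℝ => √(1 - x ^ 2) / x)
      (-(√(1 - t ^ 2) / t ^ 2) - 1 / √(1 - t ^ 2)) t := by
  have hp : 0 < 1 - t ^ 2 := by nlinarith
  have hs : 0 < √(1 - t ^ 2) := Real.sqrt_pos.mpr hp
  have hd : HasDerivAt (fun x : ℝ => 1 - x ^ 2) (-(2 * t)) t := by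
    have := (hasDerivAt_pow 2 t).const_sub 1
    simpa using this
  have h2 := hd.sqrt hp.ne'
  have h3 := h2.div (hasDerivAt_id t) h0.ne'
  refine h3.congr_deriv ?_
  simp only [id]
  field_simp
  ring

/-- derivative of the arcsine of `t/√2`, times `1/√2` -/
private lemma RGI_dc {t : ℝ} (h0 : 0 < t) (h1 : t < √2) :
    HasDerivAt (fun x : ℝ => 1 / √2 * Real.arcsin (x / √2)) (1 / (2 * √(1 - t ^ 2 / 2))) t := by
  have e : (t / √2) ^ 2 = t ^ 2 / 2 := by
    rw [div_pow, Real.sq_sqrt (by norm_num)]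
  have hlt : t / √2 < 1 := by
    rw [div_lt_one RGI_s2pos]
    exact h1
  have hgt : 0 < t / √2 := div_pos h0 RGI_s2pos
  have h2 := (Real.hasDerivAt_arcsin (x := t / √2) (by linarith) hlt.ne)
  have h3 : HasDerivAt (fun x : ℝ => x / √2) (1 / √2) t := (hasDerivAt_id t).div_const _
  have h4 := (h2.comp t h3).const_mul (1 / √2)
  refine h4.congr_deriv ?_
  rw [e]
  have hp : 0 < 1 - t ^ 2 / 2 := by nlinarith [RGI_s2, RGI_s2pos]
  have hs : 0 < √(1 - t ^ 2 / 2) := Real.sqrt_pos.mpr hp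
  have h5 := RGI_s2
  have h6 := RGI_s2pos
  rw [show 1 / √2 * (1 / √(1 - t ^ 2 / 2) * (1 / √2)) = 1 / ((√2 * √2) * √(1 - t ^ 2 / 2)) by
    field_simp, h5]

private lemma RGI_dF1 {t : ℝ} (h0 : 0 < t) (h1 : t < 1) : HasDerivAt RGI_F (Gf t) t := by
  have h1' : t < √2 := h1.trans RGI_s2gt
  have ha := RGI_da h0 h1'
  have hb := RGI_db h0 h1
  have hc := RGI_dc h0 h1'
  have hd := Real.hasDerivAt_arcsin (x := t) (by linarith) h1.ne
  have key := (((ha.sub hb).neg).sub hc).add hd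
  have hG : ∀ x : ℝ, 0 < x → x < 1 → x * Gf x = √(1 - x ^ 2 / 2) / x - √(1 - x ^ 2) / x ∧
      x ^ 2 * Gf x = √(1 - x ^ 2 / 2) - √(1 - x ^ 2) := by
    intro x hx hx1
    have hp : 0 < 1 - x ^ 2 / 2 := by nlinarith
    have hq : 0 < 1 - x ^ 2 := by nlinarith
    have e1 := Real.sq_sqrt hp.le
    have e2 := Real.sq_sqrt hq.le
    have p1 := Real.sqrt_pos.mpr hp
    have p2 := Real.sqrt_pos.mpr hq
    have e3 : x ^ 2 * Gf x = √(1 - x ^ 2 / 2) - √(1 - x ^ 2) := by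
      unfold Gf
      rw [if_pos hx1.le, mul_one_div, div_eq_iff (by positivity)]
      nlinarith
    refine ⟨?_, e3⟩
    rw [← sub_div, ← e3]
    field_simp
  have hEq : RGI_F =ᶠ[nhds t] (fun x : ℝ => -(√(1 - x ^ 2 / 2) / x - √(1 - x ^ 2) / x) -
      1 / √2 * Real.arcsin (x / √2) + Real.arcsin x) := by
    filter_upwards [Ioo_mem_nhds h0 h1] with x hx
    unfold RGI_F
    rw [(hG x hx.1 hx.2).1]
  refine (HasDerivAt.congr_of_eventuallyEq (f := fun x : ℝ => -(√(1 - x ^ 2 / 2) / x - √(1 - x ^ 2) / x) -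
      1 / √2 * Real.arcsin (x / √2) + Real.arcsin x) ?_ hEq)
  refine HasDerivAt.congr_deriv (f' := _) key ?_
  have e := (hG t h0 h1).2
  have e' : Gf t = (√(1 - t ^ 2 / 2) - √(1 - t ^ 2)) / t ^ 2 := by
    rw [← e]
    field_simp
  rw [e']
  ring

private lemma RGI_dF2 {t : ℝ} (h0 : 1 < t) (h1 : t < √2) : HasDerivAt RGI_F (Gf t) t := by
  have ht0 : 0 < t := by linarith
  have ha := RGI_da ht0 h1
  have hc := RGI_dc ht0 h1
  have key := ((ha.neg).sub hc).add_const (Real.pi / 2)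
  have hEq : RGI_F =ᶠ[nhds t] (fun x : ℝ => -(√(1 - x ^ 2 / 2) / x) -
      1 / √2 * Real.arcsin (x / √2) + Real.pi / 2) := by
    filter_upwards [Ioi_mem_nhds h0] with x hx
    have hx' : (1 : ℝ) < x := hx
    unfold RGI_F Gf
    rw [if_neg (not_le.mpr hx'), Real.arcsin_of_one_le hx'.le]
    have : x * (√(1 - x ^ 2 / 2) / x ^ 2) = √(1 - x ^ 2 / 2) / x := by
      field_simp
    rw [this]
  refine (HasDerivAt.congr_of_eventuallyEq (f := fun x : ℝ => -(√(1 - x ^ 2 / 2) / x) -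
      1 / √2 * Real.arcsin (x / √2) + Real.pi / 2) ?_ hEq)
  refine HasDerivAt.congr_deriv (f' := _) key ?_
  unfold Gf
  rw [if_neg (not_le.mpr h0)]
  ring

private lemma RGI_cont (hC : RGC_stmt) : ContinuousOn RGI_F (Set.Icc 0 √2) := by
  unfold RGI_F
  have h1 : ContinuousOn Gf (Set.Icc 0 √2) := hC.mono (fun x hx => hx.1)
  have h2 : Continuous (fun t : ℝ => Real.arcsin (t / √2)) :=
    Real.continuous_arcsin.comp (continuous_id.div_const _)
  exact (((continuousOn_id.mul h1).neg).sub (continuousOn_const.mul h2.continuousOn)).add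
    Real.continuous_arcsin.continuousOn

/-- **RGI**. -/
theorem RGI (hRWB : RWB_stmt) (hRGC : RGC_stmt) : RGI_stmt := by
  intro a ha
  have hs2 := RGI_s2gt
  have hC : ContinuousOn Gf (Set.Icc 0 √2) := hRGC.mono (fun x hx => hx.1)
  have hi1 : IntervalIntegrable Gf MeasureTheory.volume 0 √2 :=
    ContinuousOn.intervalIntegrable_of_Icc (by linarith) hC
  have hi2 : IntervalIntegrable Gf MeasureTheory.volume √2 a :=
    ContinuousOn.intervalIntegrable_of_Icc ha (hRGC.mono (fun x hx => by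
      have : √2 ≤ x := hx.1
      show (0 : ℝ) ≤ x
      linarith))
  rw [← intervalIntegral.integral_add_adjacent_intervals hi1 hi2]
  have h2 : ∫ t in (√2 : ℝ)..a, Gf t = 0 := by
    rw [intervalIntegral.integral_congr (g := fun _ => (0 : ℝ)) (fun x hx => ?_)]
    · simp
    · rw [Set.uIcc_of_le ha] at hx
      exact hRWB.2 x hx.1
  rw [h2, add_zero]
  have h3 : ∫ t in (0 : ℝ)..√2, Gf t = RGI_F √2 - RGI_F 0 := by
    refine MeasureTheory.integral_eq_of_hasDerivAt_off_countable_of_le RGI_F Gf (by linarith)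
      (s := {1}) (Set.countable_singleton 1) (RGI_cont hRGC) ?_ hi1
    intro x hx
    have hx0 : 0 < x := hx.1.1
    have hx2 : x < √2 := hx.1.2
    have hx1 : x ≠ 1 := fun h => hx.2 h
    rcases lt_or_gt_of_ne hx1 with h | h
    · exact RGI_dF1 hx0 h
    · exact RGI_dF2 h hx2
  rw [h3]
  unfold RGI_F
  rw [hRWB.2 √2 le_rfl, div_self RGI_s2pos.ne', Real.arcsin_of_one_le hs2.le]
  rw [zero_div, Real.arcsin_zero, Real.arcsin_one]
  unfold Cst
  ring

end Pool.Agent.AP
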