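import Pool.Agent.helper8.AP.SpecR

set_option autoImplicit false

namespace Pool.Agent.AP

open Finset

/-- **RRM**. -/
theorem RRM : RRM_stmt := by
  intro f K ε hK hε hf hv
  have hKpos : (0 : ℝ) < K := by exact_mod_cast (Nat.lt_of_lt_of_le Nat.zero_lt_one hK)
  have hmono : ∀ j : ℕ, (j : ℝ) / K ≤ ((j + 1 : ℕ) : ℝ) / K := by
    intro j
    apply div_le_div_of_nonneg_right _ hKpos.le
    push_cast
    linarith
  have hle2 : ∀ j : ℕ, j < 2 * K → ((j + 1 : ℕ) : ℝ) / K ≤ 2 := by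
    intro j hj
    rw [div_le_iff₀ hKpos]
    have : ((j + 1 : ℕ) : ℝ) ≤ ((2 * K : ℕ) : ℝ) := by exact_mod_cast hj
    push_cast at this ⊢
    exact this
  have hge0 : ∀ j : ℕ, (0 : ℝ) ≤ (j : ℝ) / K := fun j => by positivity
  have hsub : ∀ j : ℕ, j < 2 * K → Set.Icc ((j : ℝ) / K) (((j + 1 : ℕ) : ℝ) / K) ⊆ Set.Icc 0 2 := by
    intro j hj x hx
    exact ⟨(hge0 j).trans hx.1, hx.2.trans (hle2 j hj)⟩
  have hint : ∀ j : ℕ, j < 2 * K → IntervalIntegrable f MeasureTheory.volume ((j : ℝ) / K) (((j + 1 : ℕ) : ℝ) / K) :=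
    fun j hj => ContinuousOn.intervalIntegrable_of_Icc (hmono j) (hf.mono (hsub j hj))
  have hsum : ∑ j ∈ range (2 * K), ∫ v in ((j : ℝ) / K)..(((j + 1 : ℕ) : ℝ) / K), f v = ∫ v in (0 : ℝ)..2, f v := by
    have := intervalIntegral.sum_integral_adjacent_intervals (f := f) (μ := MeasureTheory.volume)
      (a := fun j : ℕ => (j : ℝ) / K) (n := 2 * K) (fun j hj => hint j hj)
    rw [this]
    have e1 : ((0 : ℕ) : ℝ) / K = 0 := by simp
    have e2 : ((2 * K : ℕ) : ℝ) / K = 2 := by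
      push_cast
      field_simp
    rw [e1, e2]
  rw [← hsum, Finset.mul_sum, ← Finset.sum_sub_distrib]
  refine le_trans (Finset.abs_sum_le_sum_abs _ _) ?_
  have hterm : ∀ j ∈ range (2 * K), |1 / (K : ℝ) * f (((j : ℝ) + 1) / K) -
      ∫ v in ((j : ℝ) / K)..(((j + 1 : ℕ) : ℝ) / K), f v| ≤ ε / K := by
    intro j hj
    have hj' := Finset.mem_range.mp hj
    have hlen : ((j + 1 : ℕ) : ℝ) / K - (j : ℝ) / K = 1 / K := by
      push_cast
      ring
    have e1 : 1 / (K : ℝ) * f (((j : ℝ) + 1) / K) =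
        ∫ v in ((j : ℝ) / K)..(((j + 1 : ℕ) : ℝ) / K), f (((j : ℝ) + 1) / K) := by
      rw [intervalIntegral.integral_const, hlen, smul_eq_mul]
    rw [e1, ← intervalIntegral.integral_sub (by simp) (hint j hj')]
    have hb := intervalIntegral.norm_integral_le_of_norm_le_const (a := (j : ℝ) / K)
      (b := ((j + 1 : ℕ) : ℝ) / K) (C := ε) (f := fun v => f (((j : ℝ) + 1) / K) - f v) (by
        intro x hx
        rw [Set.uIoc_of_le (hmono j)] at hx
        have hx1 : (j : ℝ) / K < x := hx.1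
        have hx2 : x ≤ ((j + 1 : ℕ) : ℝ) / K := hx.2
        have h2 := hle2 j hj'
        have h0 := hge0 j
        have e3 : ((j : ℝ) + 1) / K = ((j + 1 : ℕ) : ℝ) / K := by push_cast; ring
        rw [Real.norm_eq_abs, e3]
        refine hv _ _ (by linarith) h2 (by linarith) (by linarith) ?_
        rw [abs_of_nonneg (by linarith)]
        linarith)
    rw [Real.norm_eq_abs, hlen, abs_of_nonneg (show (0 : ℝ) ≤ 1 / (K : ℝ) by positivity)] at hb
    refine hb.trans (le_of_eq ?_)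
    ring
  refine (Finset.sum_le_sum hterm).trans (le_of_eq ?_)
  rw [Finset.sum_const, Finset.card_range, nsmul_eq_mul]
  push_cast
  field_simp

end Pool.Agent.AP
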