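import Pool.Agent.helper8.AP.SpecR

set_option autoImplicit false

namespace Pool.Agent.AP

open Finset

private lemma RWB_half : (1 : ℝ) / 2 ≤ √(1 / 2) := by
  apply Real.le_sqrt_of_sq_le
  norm_num

/-- **RWB**. -/
theorem RWB : RWB_stmt := by
  refine ⟨?_, ?_⟩
  · intro t ht
    unfold Gf
    split_ifs with h
    · have h1 : t ^ 2 ≤ 1 := by nlinarith
      have h2 : (1 : ℝ) / 2 ≤ √(1 - t ^ 2 / 2) := by
        refine le_trans RWB_half ?_
        apply Real.sqrt_le_sqrt
        linarith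
      have h3 : 0 ≤ √(1 - t ^ 2) := Real.sqrt_nonneg _
      have h4 : 1 ≤ 2 * (√(1 - t ^ 2 / 2) + √(1 - t ^ 2)) := by linarith
      refine ⟨by positivity, ?_⟩
      rw [div_le_one (by linarith)]
      exact h4
    · have h1 : 1 < t := not_le.mp h
      have h2 : 1 ≤ t ^ 2 := by nlinarith
      have h3 : √(1 - t ^ 2 / 2) ≤ 1 := by
        rw [Real.sqrt_le_iff]
        exact ⟨by norm_num, by nlinarith⟩
      refine ⟨by positivity, ?_⟩
      rw [div_le_one (by linarith)]
      linarith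
  · intro t ht
    have h0 : (1 : ℝ) < √2 := by
      rw [Real.lt_sqrt (by norm_num)]
      norm_num
    have h1 : 1 < t := lt_of_lt_of_le h0 ht
    have h2 : 2 ≤ t ^ 2 := by
      have := Real.sq_sqrt (show (0 : ℝ) ≤ 2 by norm_num)
      have h3 := Real.sqrt_nonneg 2
      nlinarith
    unfold Gf
    rw [if_neg (not_le.mpr h1)]
    have h4 : √(1 - t ^ 2 / 2) = 0 := Real.sqrt_eq_zero_of_nonpos (by linarith)
    rw [h4, zero_div]

end Pool.Agent.AP
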