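import Pool.Agent.helper8.AP.SpecR
import Pool.Agent.helper8.AP.RAS
import Pool.Agent.helper8.AP.RGC
import Pool.Agent.helper8.AP.RGI
import Pool.Agent.helper8.AP.RRM
import Pool.Agent.helper8.AP.RWB
import Pool.Agent.helper69.AP.RCE
import Pool.Agent.helper69.AP.RPI
import Pool.Agent.helper69.AP.RWA
import Pool.Agent.helper87.AP.RPU
import Pool.Agent.helper39.AP.RPT

set_option autoImplicit false

/-!
# AP, block R: assembly (helper8)
-/

namespace Pool.Agent.AP

/-- the weight function -/
theorem RW : RW_stmt := RW_of RWA RWB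

/-- sums in boxes -/
theorem RS (p : ℕ) : RS_stmt p :=
  RAS (RPI (RGI RWB RGC)) (RPU RWB RGC) RRM RPT RCE p

end Pool.Agent.AP
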