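import Pool.Agent.helper94.AP.Defs

set_option autoImplicit false

/-!
# AP (MP_16912e_nt), block R: the weight function and sums in boxes (helper8)

Goals: `RW_stmt` and `RS_stmt p` (for every `p`) of `Pool/Agent/helper94/AP/Defs.lean`.

RULES. Row `ap:RXX` is a file `Pool/Agent/<seat>/AP/RXX.lean`: `import Pool.Agent.helper8.AP.SpecR`,
`set_option autoImplicit false`, `namespace Pool.Agent.AP`, `open Finset`, and the theorem whose EXACT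
line is in the lock note (other rows only as hypotheses; an unused hypothesis may stay).  Auxiliary
lemmas are prefixed `RXX_`.  No `convert`, `congr!`, `native_decide`, no double quotes.

`ell T N y = 2 (√(T - N/2 y²) - √(T - N y²))`, `Gf t = 1 / (2 (√(1 - t²/2) + √(1 - t²)))` for `t ≤ 1` and
`√(1 - t²/2) / t²` for `t > 1`, `Ph p u v = s Gf(v s)` with `s = u ^ (-p/2)`, `Cst = (π/2) (1 - 1/√2)`.
`Real.sqrt` of a negative number is 0.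
-/

namespace Pool.Agent.AP

open Finset

/-- **RWA** (short).  First part of `RW_stmt`.
Proof.  `t = y √(N/T) > 0`, `t² = y² N/T`, `T - (N/2) y² = T (1 - t²/2)`, `T - N y² = T (1 - t²)`, so (`Real.sqrt_mul`, `T ≥ 0`) `ell T N y = 2 √T (√(1 - t²/2) - √(1 - t²))`;
`y² = t² T/N`, `√T √T = T`, so `ell/y² = (2 N/√T) h(t)/t²`, `h(t) = √(1 - t²/2) - √(1 - t²)`.  And `h(t)/t² = Gf t` for `t > 0`: `t ≤ 1`: `(√a - √b)(√a + √b) = a - b = t²/2` (`a = 1 - t²/2 ≥ 1/2`,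
`b = 1 - t² ≥ 0`; `√a + √b > 0`); `t > 1`: `√(1 - t²) = 0`. -/
def RWA_stmt : Prop := ∀ T N y : ℝ, 0 < T → 0 < N → 0 < y →
  ell T N y / y ^ 2 = 2 * N / √T * Gf (y * √(N / T))

/-- **RWB** (short).  The other parts of `RW_stmt`.
Proof.  `0 ≤ t ≤ 1`: `√(1 - t²/2) ≥ √(1/2) ≥ 1/2`, so the denominator is `≥ 1`.  `t > 1`: `√(1 - t²/2) ≤ 1`, `t² ≥ 1`.  `t ≥ √2`: `t > 1`, `1 - t²/2 ≤ 0`, the root is 0. -/
def RWB_stmt : Prop := (∀ t : ℝ, 0 ≤ t → 0 ≤ Gf t ∧ Gf t ≤ 1) ∧ (∀ t : ℝ, √2 ≤ t → Gf t = 0)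

/-- **RGC** (short-medium).  `Gf` is continuous on `[0, ∞)`.
Proof.  On the closed set `[0, 1]` it is `1 / (2 (√(1 - t²/2) + √(1 - t²)))`, the denominator is not 0 (`√(1 - t²/2) > 0`); on the closed set `[1, ∞)` it is `√(1 - t²/2) / t²` (at `t = 1`:
`1 / (2 √(1/2)) = √(1/2)`, as `√(1/2) √(1/2) = 1/2`).  Glue (`ContinuousOn.union_of_isClosed`, `ContinuousOn.if`, `ContinuousOn.piecewise` or `Continuous.if_le` for suitable extensions: for instance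
`Gf t = if t ≤ 1 then 1 / (2 (√(1 - t'²/2) + √(1 - t'²))) else √(1 - t''²/2) / t''²` with `t' = min t 1`, `t'' = max t 1` for `t ≥ 0`, and these are continuous functions on `[0, ∞)`). -/
def RGC_stmt : Prop := ContinuousOn Gf (Set.Ici 0)

/-- **RGI** (medium).  The integral of `Gf`.
Proof.  Let `F t = - t Gf t - (1/√2) arcsin (t/√2) + arcsin t` (`F` is continuous on `[0, √2]` by RGC, `Real.continuous_arcsin`).  For `0 < t < 1`: near `t` `F x = - (√(1 - x²/2) - √(1 - x²))/x - ...`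
(`x Gf x = h(x)/x`), `F' = Gf`: the derivative of `-√(1 - c x²)/x` is `√(1 - c x²)/x² + c/√(1 - c x²)`, that of `√c arcsin(√c x)` is `c/√(1 - c x²)`.  For `1 < t < √2`: near `t` `F x = -√(1 - x²/2)/x - (1/√2) arcsin(x/√2) + π/2`, `F' = Gf`.
The fundamental theorem with one exceptional point (`MeasureTheory.integral_eq_of_hasDerivAt_off_countable` or the `_of_hasDerivWithinAt_` version, or on `[0,1]` and `[1, √2]`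
separately: `intervalIntegral.integral_eq_sub_of_hasDeriv_right_of_le`): `F(√2) - F(0) = -(1/√2)(π/2) + π/2 = Cst`.  On `[√2, a]` `Gf = 0` (RWB). -/
def RGI_stmt : Prop := ∀ a : ℝ, √2 ≤ a → ∫ t in (0 : ℝ)..a, Gf t = Cst

/-- **RPI** (short).  The integral of `Ph p u` over `[0, 2]`.
Proof.  `s = u ^ (-p/2) ≥ 1` (`0 < u ≤ 1`, `Real.one_le_rpow_of_pos_of_le_one_of_nonpos`), `∫_0^2 s Gf(v s) dv = ∫_0^(2 s) Gf` (`intervalIntegral.integral_comp_mul_right` or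
`intervalIntegral.mul_integral_comp_mul_right`), `2 s ≥ 2 ≥ √2`. -/
def RPI_stmt : Prop := ∀ (p : ℕ) (u : ℝ), 0 < u → u ≤ 1 → ∫ v in (0 : ℝ)..2, Ph p u v = Cst

/-- **RPU** (short-medium).  `Ph p` is bounded and uniformly continuous on `[1/2, 1] × [0, 2]`.
Proof.  `u ↦ u ^ (-p/2)` is continuous on `[1/2, 1]` (`ContinuousOn.rpow_const`, `Real.continuousAt_rpow_const`), between `0` and `B = (1/2) ^ (-p/2)`; so `(u, v) ↦ Ph p u v` is continuous on the compact set `[1/2, 1] ×ˢ [0, 2]`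
(RGC, `v s ≥ 0`), and `0 ≤ Ph ≤ B` (RWB).  `IsCompact.uniformContinuousOn_of_continuous`, `Metric.uniformContinuousOn_iff_le`: `δ` for `ε`, `K₀ ≥ 1/δ` (`dist` on the product is the maximum). -/
def RPU_stmt : Prop := ∀ p : ℕ, ∃ B : ℝ, 1 ≤ B ∧
  (∀ u v : ℝ, 1 / 2 ≤ u → u ≤ 1 → 0 ≤ v → v ≤ 2 → 0 ≤ Ph p u v ∧ Ph p u v ≤ B) ∧
  (∀ u : ℝ, 1 / 2 ≤ u → u ≤ 1 → ContinuousOn (fun v => Ph p u v) (Set.Icc 0 2)) ∧
  ∀ ε : ℝ, 0 < ε → ∃ K₀ : ℕ, 1 ≤ K₀ ∧ ∀ K : ℕ, K₀ ≤ K → ∀ u v u' v' : ℝ, 1 / 2 ≤ u → u ≤ 1 → 0 ≤ v → v ≤ 2 →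
    1 / 2 ≤ u' → u' ≤ 1 → 0 ≤ v' → v' ≤ 2 → |u - u'| ≤ 1 / K → |v - v'| ≤ 1 / K → |Ph p u v - Ph p u' v'| ≤ ε

/-- **RRM** (medium).  A Riemann sum.
Proof.  `∫_0^2 f = ∑_{j < 2K} ∫_{j/K}^{(j+1)/K} f` (`intervalIntegral.sum_integral_adjacent_intervals` with `a j = j/K`, `f` is integrable on each of them, being continuous on `[0, 2]`), and on the `j`-th interval
`|f v - f ((j+1)/K)| ≤ ε`, so the integral is within `ε/K` of `f((j+1)/K)/K` (`intervalIntegral.norm_integral_le_of_norm_le_const` for the difference).  There are `2 K` intervals. -/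
def RRM_stmt : Prop := ∀ (f : ℝ → ℝ) (K : ℕ) (ε : ℝ), 1 ≤ K → 0 ≤ ε → ContinuousOn f (Set.Icc 0 2) →
  (∀ v v' : ℝ, 0 ≤ v → v ≤ 2 → 0 ≤ v' → v' ≤ 2 → |v - v'| ≤ 1 / K → |f v - f v'| ≤ ε) →
  |1 / (K : ℝ) * ∑ j ∈ range (2 * K), f (((j : ℝ) + 1) / K) - ∫ v in (0 : ℝ)..2, f v| ≤ 2 * ε

/-- **RPT** (short-medium).  The rectangle is the union of the cells.
Proof.  `a i = ⌊i/K * Z⌋₊` is monotone; `∑_{i ∈ Ico m n} ∑_{z ∈ Ioc (a i) (a (i+1))} g z = ∑_{z ∈ Ioc (a m) (a n)} g z` for `m ≤ n` by induction on `n` (`Finset.sum_Ioc_consecutive`,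
`Finset.sum_Ico_succ_top`); `m = K/2`: `(K/2)/K = 1/2` (`K` even), `n = K`: `K/K = 1`.  The same for `y` with `m = 0`, `n = 2 K` (`range = Ico 0`).  Exchange the sums over `j` and `z`. -/
def RPT_stmt : Prop := ∀ (f : ℕ → ℕ → ℝ) (K : ℕ) (Z V : ℝ), 2 ≤ K → Even K → 0 < Z → 0 < V →
  ∑ z ∈ Ioc ⌊Z / 2⌋₊ ⌊Z⌋₊, ∑ y ∈ Ioc 0 ⌊2 * V⌋₊, f z y =
    ∑ i ∈ Ico (K / 2) K, ∑ j ∈ range (2 * K),
      ∑ z ∈ Ioc ⌊(i : ℝ) / K * Z⌋₊ ⌊((i : ℝ) + 1) / K * Z⌋₊,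
        ∑ y ∈ Ioc ⌊(j : ℝ) / K * V⌋₊ ⌊((j : ℝ) + 1) / K * V⌋₊, f z y

/-- **RCE** (short).  One cell.
Proof.  `|∑ c φ - Φ ∑ c| ≤ ε ∑ c ≤ ε (γ + θ γ + ρ) A` and `|Φ ∑ c - Φ γ A| ≤ B (θ γ + ρ) A`. -/
def RCE_stmt : Prop := ∀ (S T : Finset ℕ) (c φ : ℕ → ℕ → ℝ) (Φ B ε A γ θ ρ : ℝ), (∀ z y, 0 ≤ c z y) → 0 ≤ Φ → Φ ≤ B →
  0 ≤ ε → 0 ≤ A → 0 ≤ γ → 0 ≤ θ → 0 ≤ ρ → (∀ z ∈ S, ∀ y ∈ T, |φ z y - Φ| ≤ ε) →
  |∑ z ∈ S, ∑ y ∈ T, c z y - γ * A| ≤ (θ * γ + ρ) * A →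
  |∑ z ∈ S, ∑ y ∈ T, c z y * φ z y - γ * (Φ * A)| ≤ ((B + ε) * (θ * γ + ρ) + ε * γ) * A

/-- **RAS** (medium, assembly of `RS_stmt`).
Proof.  `B`, `K₀` from RPU with `ε' = min ε 1`; `K = 2 K₀` (`K₀ ≥ 1`; even, `≥ 2`).  By RPT the sum is `∑_i ∑_j` of the cell sums of `c z y * Ph p (z/Z) (y/V)`; for `z ∈ Ioc ⌊i/K Z⌋₊ ⌊(i+1)/K Z⌋₊`: `i/K < z/Z ≤ (i+1)/K`
(`Nat.lt_of_floor_lt` / `Nat.lt_floor_add_one`, `Nat.floor_le`), so with `Φ = Ph p ((i+1)/K) ((j+1)/K)` (a point of `[1/2, 1] × [0, 2]` as `K/2 ≤ i < K`, `j < 2 K`) `|Ph p (z/Z) (y/V) - Φ| ≤ ε'`.  RCE with `A = Z/K * (V/K)`.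
Sum over the `K/2 * 2K = K²` cells, `K² A = Z V`: the sum is within `((B + ε')(θ γ + ρ) + ε' γ) Z V` of `γ A ∑_i ∑_j Φ_ij`.  RRM (`f v = Ph p ((i+1)/K) v`, continuous by RPU) and RPI: `|(1/K) ∑_j Φ_ij - Cst| ≤ 2 ε'` for every `i`, so
`|(1/K²) ∑_i ∑_j Φ_ij - Cst/2| ≤ (1/K) (K/2) 2 ε' = ε'`.  Total error `≤ ((B + 1)(θ γ + ρ) + 2 ε γ) Z V`; `C = B + 2`. -/
def RAS_stmt : Prop := ∀ p : ℕ, RS_stmt p

/-- `RW_stmt` from the rows RWA, RWB. -/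
theorem RW_of (h1 : RWA_stmt) (h2 : RWB_stmt) : RW_stmt := ⟨h1, h2.1, h2.2⟩

end Pool.Agent.AP
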